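import Pool.Agent.H47.ALLH.Stmts

/-!
# ALLH, row IDN: identity between products of solutions
-/

set_option autoImplicit false

namespace Pool.ALLH

open Finset

namespace IDN12

theorem sw (A K : Finset ℕ) (γ : ℕ → ℕ → ℕ) :
    ∏ j ∈ A, ∏ q ∈ K, q ^ γ j q = ∏ q ∈ K, q ^ (∑ j ∈ A, γ j q) := by
  rw [Finset.prod_comm]
  exact Finset.prod_congr rfl fun q _ => Finset.prod_pow_eq_pow_sum A (fun j => γ j q) q

theorem spl (g z0 : ℕ) (A K : Finset ℕ) (r ζ : ℕ → ℕ) (β : ℕ → ℕ → ℕ) :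
    ∏ j ∈ A, (r j ^ (z0 + g * ζ j) * ∏ q ∈ K, q ^ β j q) =
      (∏ j ∈ A, r j) ^ z0 * (∏ j ∈ A, r j ^ ζ j) ^ g * ∏ q ∈ K, q ^ (∑ j ∈ A, β j q) := by
  rw [Finset.prod_mul_distrib, sw, ← Finset.prod_pow, ← Finset.prod_pow,
    ← Finset.prod_mul_distrib]
  congr 1
  exact Finset.prod_congr rfl fun j _ => by rw [pow_add, mul_comm g (ζ j), pow_mul]

end IDN12

/-- Row IDN. -/
theorem idn_thm : S_IDN := by
  intro g z0 K A B r ζ β γ n h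
  rw [IDN12.spl, IDN12.spl, IDN12.sw, IDN12.sw]
  have key : (∏ q ∈ K, q ^ (∑ j ∈ A, γ j q)) * (∏ q ∈ K, q ^ (∑ j ∈ B, β j q)) *
      (∏ q ∈ K, q ^ (-n q).toNat) ^ g =
      (∏ q ∈ K, q ^ (∑ j ∈ B, γ j q)) * (∏ q ∈ K, q ^ (∑ j ∈ A, β j q)) *
      (∏ q ∈ K, q ^ (n q).toNat) ^ g := by
    rw [← Finset.prod_pow, ← Finset.prod_pow, ← Finset.prod_mul_distrib,
      ← Finset.prod_mul_distrib, ← Finset.prod_mul_distrib, ← Finset.prod_mul_distrib]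
    refine Finset.prod_congr rfl fun q hq => ?_
    rw [← pow_mul, ← pow_mul, ← pow_add, ← pow_add, ← pow_add, ← pow_add]
    congr 1
    have h1 := h q hq
    rw [Finset.sum_sub_distrib, Finset.sum_sub_distrib] at h1
    have h2 : (n q : ℤ) = ((n q).toNat : ℤ) - ((-n q).toNat : ℤ) := by omega
    rw [h2] at h1
    zify
    linear_combination h1
  rw [mul_pow, mul_pow]
  calc _ = (∏ j ∈ B, r j) ^ z0 * (∏ j ∈ B, r j ^ ζ j) ^ g * ((∏ j ∈ A, r j) ^ z0 *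
        (∏ j ∈ A, r j ^ ζ j) ^ g) * ((∏ q ∈ K, q ^ (∑ j ∈ A, γ j q)) *
        (∏ q ∈ K, q ^ (∑ j ∈ B, β j q)) * (∏ q ∈ K, q ^ (-n q).toNat) ^ g) := by ring
    _ = _ := by rw [key]; ring

end Pool.ALLH
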